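import Mathlib

set_option autoImplicit false

namespace Pool.Agent.Helper67.QH

open scoped BigOperators RealInnerProductSpace

/-- QH-D (determinant inequality). -/
theorem det_le {d : ℕ} {I : Type} [Fintype I] (u : I → EuclideanSpace ℝ (Fin d)) (c : I → ℝ)
    (hc : ∀ i, 0 ≤ c i) (hu : ∀ i, c i ≠ 0 → ‖u i‖ = 1)
    (hiso : ∀ w : EuclideanSpace ℝ (Fin d), ∑ i, c i * ⟪u i, w⟫ ^ 2 = ‖w‖ ^ 2)
    (Q : EuclideanSpace ℝ (Fin d) →L[ℝ] EuclideanSpace ℝ (Fin d)) (hQ : 0 < Q.det) :
    Real.log Q.det ≤ ∑ i, c i * Real.log ‖Q (u i)‖ := by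
  classical
  set f : EuclideanSpace ℝ (Fin d) →ₗ[ℝ] EuclideanSpace ℝ (Fin d) := Q.toLinearMap with hf
  have hdet : LinearMap.det f = Q.det := rfl
  set P : EuclideanSpace ℝ (Fin d) →ₗ[ℝ] EuclideanSpace ℝ (Fin d) := f.adjoint ∘ₗ f with hP
  have hPs : P.IsSymmetric := by
    intro x y
    simp only [hP, LinearMap.comp_apply, LinearMap.adjoint_inner_left, LinearMap.adjoint_inner_right]
  have hn : Module.finrank ℝ (EuclideanSpace ℝ (Fin d)) = d := by simp
  set e := hPs.eigenvectorBasis hn with he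
  set t := hPs.eigenvalues hn with ht
  have hinner : ∀ x y, ⟪x, P y⟫ = ⟪Q x, Q y⟫ := by
    intro x y
    simp only [hP, LinearMap.comp_apply, LinearMap.adjoint_inner_right]
    rfl
  have hPe : ∀ k, P (e k) = t k • e k := fun k => hPs.apply_eigenvectorBasis hn k
  have hinj : ∀ x, Q x = 0 → x = 0 := by
    intro x hx
    have h1 : (f.equivOfDetNeZero (by rw [hdet]; exact hQ.ne')) x = 0 := hx
    exact (LinearEquiv.map_eq_zero_iff _).1 h1
  have htk : ∀ k, t k = ‖Q (e k)‖ ^ 2 := by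
    intro k
    have h1 := hinner (e k) (e k)
    rw [hPe k, inner_smul_right, real_inner_self_eq_norm_sq, real_inner_self_eq_norm_sq,
      e.norm_eq_one] at h1
    linarith
  have htpos : ∀ k, 0 < t k := by
    intro k
    rw [htk k]
    have : Q (e k) ≠ 0 := fun h => by
      have h1 := e.norm_eq_one k
      rw [hinj _ h, norm_zero] at h1
      exact zero_ne_one h1
    positivity
  have hprod : ∏ k, t k = Q.det ^ 2 := by
    have h1 := LinearMap.normDet_sq f
    rw [LinearMap.normDet_eq_abs_det, sq_abs, hdet] at h1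
    have h2 := hPs.det_eq_prod_eigenvalues hn
    simp only [RCLike.ofReal_real_eq_id, id] at h1 h2
    rw [← h2, ← h1]
  -- the norm of `Q u`
  have hQu : ∀ x, ‖Q x‖ ^ 2 = ∑ k, ⟪x, e k⟫ ^ 2 * t k := by
    intro x
    rw [← real_inner_self_eq_norm_sq, ← hinner, ← e.sum_inner_mul_inner x (P x)]
    refine Finset.sum_congr rfl fun k _ => ?_
    have : ⟪e k, P x⟫ = t k * ⟪e k, x⟫ := by
      rw [← hPs (e k) x, hPe k, inner_smul_left]; simp
    rw [this, real_inner_comm x (e k)]; ring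
  have hlog : ∀ i, c i * ∑ k, ⟪u i, e k⟫ ^ 2 * Real.log (t k) ≤ c i * (2 * Real.log ‖Q (u i)‖) := by
    intro i
    by_cases hci : c i = 0
    · simp [hci]
    refine mul_le_mul_of_nonneg_left ?_ (hc i)
    have h1 := strictConcaveOn_log_Ioi.concaveOn.le_map_sum (t := Finset.univ)
      (w := fun k => ⟪u i, e k⟫ ^ 2) (p := t) (fun k _ => sq_nonneg _)
      (by rw [e.sum_sq_inner_left, hu i hci]; norm_num) (fun k _ => htpos k)
    simp only [smul_eq_mul] at h1
    rw [← hQu, Real.log_pow] at h1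
    exact_mod_cast h1
  have h3 := Finset.sum_le_sum fun i (_ : i ∈ (Finset.univ : Finset I)) => hlog i
  have h4 : ∑ i, c i * ∑ k, ⟪u i, e k⟫ ^ 2 * Real.log (t k) = 2 * Real.log Q.det := by
    simp_rw [Finset.mul_sum]
    rw [Finset.sum_comm]
    have : ∀ k, ∑ i, c i * (⟪u i, e k⟫ ^ 2 * Real.log (t k)) = Real.log (t k) := by
      intro k
      have h5 := hiso (e k)
      rw [e.norm_eq_one, one_pow] at h5
      simp_rw [← mul_assoc]
      rw [← Finset.sum_mul, h5, one_mul]
    simp_rw [this]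
    rw [← Real.log_prod (fun k _ => (htpos k).ne'), hprod, Real.log_pow]
    norm_num
  rw [h4] at h3
  have h5 : ∑ i, c i * (2 * Real.log ‖Q (u i)‖) = 2 * ∑ i, c i * Real.log ‖Q (u i)‖ := by
    rw [Finset.mul_sum]
    exact Finset.sum_congr rfl fun i _ => by ring
  rw [h5] at h3
  linarith

end Pool.Agent.Helper67.QH
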